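import Pool.Agent.Helper10.SP.GoalsA

/-! # LMF: the Levi matrix -/

open Complex Metric Set Filter Topology MeasureTheory
open scoped ContDiff ComplexConjugate ComplexOrder Manifold Matrix

namespace Pool.Agent.Helper90.SP

open Pool.Agent.Helper95.Lin Pool.Agent.Helper16.Abund Pool.Agent.Helper92.Orb
open Pool.Agent.Helper10.SP

/-- The sesquilinear form of a real bilinear form. -/
noncomputable def HB {n : ℕ} (B : Cn n →L[ℝ] Cn n →L[ℝ] ℝ) (u v : Cn n) : ℂ :=
  (B u v : ℂ) + (B (I • u) (I • v) : ℂ) + I * ((B u (I • v) : ℂ) - (B (I • u) v : ℂ))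

section HB

variable {n : ℕ} (B : Cn n →L[ℝ] Cn n →L[ℝ] ℝ)

theorem hb_add_left (u u' v : Cn n) : HB B (u + u') v = HB B u v + HB B u' v := by
  simp only [HB, smul_add, map_add, ContinuousLinearMap.add_apply, Complex.ofReal_add]
  ring

theorem hb_add_right (u v v' : Cn n) : HB B u (v + v') = HB B u v + HB B u v' := by
  simp only [HB, smul_add, map_add, Complex.ofReal_add]
  ring

theorem csmul_eq (c : ℂ) (u : Cn n) : c • u = c.re • u + c.im • (I • u) := by
  ext i
  simp only [Pi.smul_apply, Pi.add_apply, smul_eq_mul, Complex.real_smul]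
  nth_rewrite 1 [← Complex.re_add_im c]
  ring

theorem II_smul (u : Cn n) : I • (I • u) = -u := by
  rw [smul_smul, Complex.I_mul_I, neg_smul, one_smul]

theorem hb_rsmul_left (a : ℝ) (u v : Cn n) : HB B (a • u) v = a * HB B u v := by
  have h : I • (a • u) = a • (I • u) := smul_comm _ _ _
  simp only [HB, h, map_smul, ContinuousLinearMap.smul_apply, smul_eq_mul, Complex.ofReal_mul]
  ring

theorem hb_rsmul_right (a : ℝ) (u v : Cn n) : HB B u (a • v) = a * HB B u v := by
  have h : I • (a • v) = a • (I • v) := smul_comm _ _ _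
  simp only [HB, h, map_smul, smul_eq_mul, Complex.ofReal_mul]
  ring

theorem hb_I_left (u v : Cn n) : HB B (I • u) v = I * HB B u v := by
  simp only [HB, II_smul, map_neg, ContinuousLinearMap.neg_apply, Complex.ofReal_neg]
  linear_combination (-(B u (I • v) : ℂ) + (B (I • u) v : ℂ)) * Complex.I_mul_I

theorem hb_I_right (u v : Cn n) : HB B u (I • v) = -I * HB B u v := by
  simp only [HB, II_smul, map_neg, Complex.ofReal_neg]
  linear_combination ((B u (I • v) : ℂ) - (B (I • u) v : ℂ)) * Complex.I_mul_I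

theorem hb_smul_left (c : ℂ) (u v : Cn n) : HB B (c • u) v = c * HB B u v := by
  rw [csmul_eq, hb_add_left, hb_rsmul_left, hb_rsmul_left, hb_I_left]
  nth_rewrite 3 [← Complex.re_add_im c]
  ring

theorem hb_smul_right (c : ℂ) (u v : Cn n) : HB B u (c • v) = conj c * HB B u v := by
  rw [csmul_eq, hb_add_right, hb_rsmul_right, hb_rsmul_right, hb_I_right]
  have h : conj c = (c.re : ℂ) - c.im * I := by
    apply Complex.ext <;> simp
  rw [h]
  ring

theorem hb_sum_left {ι : Type} (s : Finset ι) (u : ι → Cn n) (v : Cn n) :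
    HB B (∑ j ∈ s, u j) v = ∑ j ∈ s, HB B (u j) v := by
  classical
  induction s using Finset.induction_on with
  | empty =>
    simp [HB]
  | insert a s ha ih =>
    rw [Finset.sum_insert ha, Finset.sum_insert ha, hb_add_left, ih]

theorem hb_sum_right {ι : Type} (s : Finset ι) (u : Cn n) (v : ι → Cn n) :
    HB B u (∑ j ∈ s, v j) = ∑ j ∈ s, HB B u (v j) := by
  classical
  induction s using Finset.induction_on with
  | empty =>
    simp [HB]
  | insert a s ha ih =>
    rw [Finset.sum_insert ha, Finset.sum_insert ha, hb_add_right, ih]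

theorem cn_eq_sum (e : Cn n) : e = ∑ j, e j • (Pi.single j 1 : Cn n) := by
  ext i
  simp [Finset.sum_apply, Pi.single_apply]

theorem hb_expand (e : Cn n) : HB B e e = ∑ j, ∑ k,
    HB B (Pi.single j 1) (Pi.single k 1) * e j * conj (e k) := by
  nth_rewrite 1 2 [cn_eq_sum e]
  rw [hb_sum_left]
  refine Finset.sum_congr rfl fun j _ => ?_
  rw [hb_sum_right]
  refine Finset.sum_congr rfl fun k _ => ?_
  rw [hb_smul_left, hb_smul_right]
  ring

theorem hb_re (e : Cn n) : (HB B e e).re = B e e + B (I • e) (I • e) := by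
  simp [HB]

end HB

theorem I_single {n : ℕ} (j : Fin n) : I • (Pi.single j 1 : Cn n) = Pi.single j I := by
  ext i
  by_cases h : i = j
  · subst h
    simp
  · simp [h]

theorem cdb_congr {n : ℕ} {f g : Cn n → ℂ} {x : Cn n} (h : f =ᶠ[𝓝 x] g) (k : Fin n) :
    cdb k f x = cdb k g x := by
  unfold cdb
  rw [h.fderiv_eq]

theorem cd_congr {n : ℕ} {f g : Cn n → ℂ} {x : Cn n} (h : f =ᶠ[𝓝 x] g) (k : Fin n) :
    cd k f x = cd k g x := by
  unfold cd
  rw [h.fderiv_eq]

/-- The second derivative. -/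
theorem hess_eq {n : ℕ} {W : Set (Cn n)} (hW : IsOpen W) {Φ : Cn n → ℝ}
    (hΦ : ContDiffOn ℝ ∞ Φ W) {x : Cn n} (hx : x ∈ W) :
    HasFDerivAt (fderiv ℝ Φ) (fderiv ℝ (fderiv ℝ Φ) x) x := by
  have h1 : ContDiffAt ℝ ∞ Φ x := hΦ.contDiffAt (hW.mem_nhds hx)
  have h2 : ContDiffAt ℝ 1 (fderiv ℝ Φ) x := h1.fderiv_right (m := 1) (by norm_cast)
  exact (h2.differentiableAt one_ne_zero).hasFDerivAt

theorem lm_eq {n : ℕ} {W : Set (Cn n)} (hW : IsOpen W) {Φ : Cn n → ℝ}
    (hΦ : ContDiffOn ℝ ∞ Φ W) {x : Cn n} (hx : x ∈ W) (j k : Fin n) :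
    LM Φ x j k = HB (fderiv ℝ (fderiv ℝ Φ) x) (Pi.single j 1) (Pi.single k 1) := by
  have hB := hess_eq hW hΦ hx
  set B := fderiv ℝ (fderiv ℝ Φ) x with hBdef
  have hd : ∀ y ∈ W, ∀ v : Cn n, fderiv ℝ (fun y => (Φ y : ℂ)) y v = ((fderiv ℝ Φ y v : ℝ) : ℂ) := by
    intro y hy v
    have h1 : DifferentiableAt ℝ Φ y :=
      (hΦ.contDiffAt (hW.mem_nhds hy)).differentiableAt (by simp)
    have h2 : HasFDerivAt (fun y => (Φ y : ℂ)) (Complex.ofRealCLM.comp (fderiv ℝ Φ y)) y :=
      Complex.ofRealCLM.hasFDerivAt.comp y h1.hasFDerivAt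
    rw [h2.fderiv]
    rfl
  have hv : ∀ v : Cn n, HasFDerivAt (fun y => ((fderiv ℝ Φ y v : ℝ) : ℂ))
      (Complex.ofRealCLM.comp (B.flip v)) x := by
    intro v
    have h1 : HasFDerivAt (fun y => fderiv ℝ Φ y v) (B.flip v) x := by
      have := hB.clm_apply (hasFDerivAt_const v x)
      refine this.congr_fderiv ?_
      ext u
      simp
    exact Complex.ofRealCLM.hasFDerivAt.comp x h1
  have he : cdb k (fun y => (Φ y : ℂ)) =ᶠ[𝓝 x] fun y =>
      ((fderiv ℝ Φ y (Pi.single k 1) : ℝ) : ℂ) + I * ((fderiv ℝ Φ y (Pi.single k I) : ℝ) : ℂ) := by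
    filter_upwards [hW.mem_nhds hx] with y hy
    simp only [cdb]
    rw [hd y hy, hd y hy]
  have h3 := (hv (Pi.single k 1)).add ((hv (Pi.single k I)).const_mul I)
  have h4 : fderiv ℝ (cdb k (fun y => (Φ y : ℂ))) x =
      Complex.ofRealCLM.comp (B.flip (Pi.single k 1)) +
        I • Complex.ofRealCLM.comp (B.flip (Pi.single k I)) := by
    rw [he.fderiv_eq]
    exact h3.fderiv
  show cd j (cdb k (fun y => (Φ y : ℂ))) x = _
  simp only [cd, h4, HB, I_single]
  simp only [ContinuousLinearMap.add_apply, ContinuousLinearMap.smul_apply,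
    ContinuousLinearMap.comp_apply, ContinuousLinearMap.flip_apply, Complex.ofRealCLM_apply,
    smul_eq_mul]
  linear_combination (-(B (Pi.single j I) (Pi.single k I) : ℂ)) * Complex.I_mul_I

theorem lev_eq_hb {n : ℕ} {W : Set (Cn n)} (hW : IsOpen W) {Φ : Cn n → ℝ}
    (hΦ : ContDiffOn ℝ ∞ Φ W) {x : Cn n} (hx : x ∈ W) (e : Cn n) :
    lev Φ x e = (HB (fderiv ℝ (fderiv ℝ Φ) x) e e).re := by
  have hB := hess_eq hW hΦ hx
  have h1 : ∀ u v : Cn n, hess Φ x u v = fderiv ℝ (fderiv ℝ Φ) x u v := by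
    intro u v
    have := hB.clm_apply (hasFDerivAt_const v x)
    unfold hess
    rw [this.fderiv]
    simp
  rw [hb_re]
  unfold lev
  rw [h1, h1]

theorem lmf (hWIRT : S_WIRT) : S_LMF := by
  intro n W hW Φ hΦ
  set Φc : Cn n → ℂ := fun y => (Φ y : ℂ) with hΦc
  have hc : ContDiffOn ℝ ∞ Φc W := Complex.ofRealCLM.contDiff.comp_contDiffOn hΦ
  have hcdb : ∀ l, ContDiffOn ℝ ∞ (cdb l Φc) W := fun l => ((hWIRT W hW Φc Φc hc hc).1 l).2
  have hcd : ∀ l, ContDiffOn ℝ ∞ (cd l Φc) W := fun l => ((hWIRT W hW Φc Φc hc hc).1 l).1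
  have hLM : ∀ y j k, LM Φ y j k = cd j (cdb k Φc) y := fun y j k => rfl
  have hherm : ∀ x ∈ W, (LM Φ x).IsHermitian := by
    intro x hx
    ext j k
    rw [Matrix.conjTranspose_apply, hLM, hLM]
    obtain ⟨-, -, -, a4, -, -⟩ := hWIRT W hW (cdb j Φc) (cdb j Φc) (hcdb j) (hcdb j)
    obtain ⟨-, -, -, b4, b5, -⟩ := hWIRT W hW Φc Φc hc hc
    have e1 : (fun y => conj (cdb j Φc y)) =ᶠ[𝓝 x] cd j Φc := by
      filter_upwards [hW.mem_nhds hx] with y hy
      have := (b4 j y hy).1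
      have e2 : (fun y => conj (Φc y)) = Φc := by
        funext y
        exact Complex.conj_ofReal _
      rw [e2] at this
      rw [this]
    have e3 : cdb k (fun y => conj (cdb j Φc y)) x = cdb k (cd j Φc) x := cdb_congr e1 k
    have e4 := (a4 k x hx).2
    rw [e3] at e4
    rw [(b5 j k x hx).2.2, e4]
    rfl
  refine ⟨?_, hherm, ?_, ?_⟩
  · intro j k
    exact ((hWIRT W hW (cdb k Φc) (cdb k Φc) (hcdb k) (hcdb k)).1 j).1
  · intro x hx e
    have h1 : hermi (LM Φ x) e e = HB (fderiv ℝ (fderiv ℝ Φ) x) e e := by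
      rw [hb_expand]
      unfold hermi
      refine Finset.sum_congr rfl fun j _ => Finset.sum_congr rfl fun k _ => ?_
      rw [lm_eq hW hΦ hx]
    have h2 : conj (hermi (LM Φ x) e e) = hermi (LM Φ x) e e := by
      unfold hermi
      rw [map_sum]
      simp only [map_sum, map_mul, Complex.conj_conj]
      rw [Finset.sum_comm]
      refine Finset.sum_congr rfl fun j _ => Finset.sum_congr rfl fun k _ => ?_
      have := (hherm x hx).apply j k
      rw [← this]
      simp only [RCLike.star_def]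
      ring
    have h3 : (hermi (LM Φ x) e e).im = 0 := by
      rwa [Complex.conj_eq_iff_im] at h2
    apply Complex.ext
    · rw [Complex.ofReal_re, lev_eq_hb hW hΦ hx, h1]
    · rw [Complex.ofReal_im, h3]
  · intro x hx j k l
    obtain ⟨-, -, -, -, a5, -⟩ := hWIRT W hW (cdb k Φc) (cdb k Φc) (hcdb k) (hcdb k)
    obtain ⟨-, -, -, -, c5, -⟩ := hWIRT W hW (cdb l Φc) (cdb l Φc) (hcdb l) (hcdb l)
    obtain ⟨-, -, -, -, b5, -⟩ := hWIRT W hW Φc Φc hc hc
    refine ⟨(a5 l j x hx).1, ?_⟩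
    show cdb l (cd j (cdb k Φc)) x = cdb k (cd j (cdb l Φc)) x
    rw [← (a5 j l x hx).2.2, ← (c5 j k x hx).2.2]
    have e1 : cdb l (cdb k Φc) =ᶠ[𝓝 x] cdb k (cdb l Φc) := by
      filter_upwards [hW.mem_nhds hx] with y hy
      exact (b5 l k y hy).2.1
    exact cd_congr e1 j

end Pool.Agent.Helper90.SP
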